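import Mathlib

set_option autoImplicit false

namespace Pool.Agent.H.MP_b029fa_co

open Finset Real

/-- slope of the chord -/
noncomputable def aa (N : ℝ) : ℝ := -log (1 - 2 / N) / 2

/-- defect from the chord -/
noncomputable def phi (N μ : ℝ) : ℝ := log (1 - μ / N) + aa N * μ

lemma aa_eq {N : ℝ} (hN : 3 ≤ N) :
    aa N = 1 / 2 * log ((1 + 1 / (N - 1)) / (1 - 1 / (N - 1))) := by
  have h1 : N - 1 ≠ 0 := by linarith
  have h2 : N - 2 ≠ 0 := by linarith
  have h3 : N ≠ 0 := by linarith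
  have : (1 + 1 / (N - 1)) / (1 - 1 / (N - 1)) = (1 - 2 / N)⁻¹ := by
    have e1 : 1 - 1 / (N - 1) = (N - 2) / (N - 1) := by field_simp; ring
    have e2 : 1 - 2 / N = (N - 2) / N := by field_simp
    rw [e1, e2]; field_simp; ring
  rw [this, log_inv, aa]; ring

lemma aa_lower {N : ℝ} (hN : 3 ≤ N) :
    1 / (N - 1) + (1 / (N - 1)) ^ 3 / 3 + (1 / (N - 1)) ^ 5 / 5 ≤ aa N := by
  have h1 : 0 < N - 1 := by linarith
  have := sum_range_le_log_div (x := 1 / (N - 1)) (by positivity)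
    (by rw [div_lt_one h1]; linarith) 3
  rw [aa_eq hN]
  simp only [Finset.sum_range_succ, Finset.sum_range_zero] at this
  norm_num at this ⊢
  linarith

lemma aa_upper {N : ℝ} (hN : 3 ≤ N) :
    aa N ≤ 1 / (N - 1) + (1 / (N - 1)) ^ 3 / 3 + (1 / (N - 1)) ^ 5 / (1 - (1 / (N - 1)) ^ 2) := by
  have h1 : 0 < N - 1 := by linarith
  have := log_div_le_sum_range_add (x := 1 / (N - 1)) (by positivity)
    (by rw [div_lt_one h1]; linarith) 2
  rw [aa_eq hN]
  simp only [Finset.sum_range_succ, Finset.sum_range_zero] at this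
  norm_num at this ⊢
  linarith

lemma aa_upper3 {N : ℝ} (hN : 3 ≤ N) :
    aa N ≤ 1 / (N - 1) + (1 / (N - 1)) ^ 3 / 3 + (1 / (N - 1)) ^ 5 / 5 +
      (1 / (N - 1)) ^ 7 / 7 + (1 / (N - 1)) ^ 9 / (1 - (1 / (N - 1)) ^ 2) := by
  have h1 : 0 < N - 1 := by linarith
  have := log_div_le_sum_range_add (x := 1 / (N - 1)) (by positivity)
    (by rw [div_lt_one h1]; linarith) 4
  rw [aa_eq hN]
  simp only [Finset.sum_range_succ, Finset.sum_range_zero] at this
  norm_num at this ⊢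
  linarith

lemma aa_A {N : ℝ} (hN : 3 ≤ N) : (3 * N - 1) / (N * (3 * N - 4)) ≤ aa N := by
  refine le_trans ?_ (aa_lower hN)
  have h1 : 0 < N - 1 := by linarith
  have h2 : 0 < 3 * N - 4 := by linarith
  have h3 : 0 < N := by linarith
  have h4 : 0 ≤ (1 / (N - 1)) ^ 5 / 5 := by positivity
  have : 1 / (N - 1) + (1 / (N - 1)) ^ 3 / 3 - (3 * N - 1) / (N * (3 * N - 4)) =
      (2 * N - 3) / (3 * (N - 1) ^ 3 * N * (3 * N - 4)) := by
    obtain ⟨K, hK⟩ : ∃ K, K = 3 * N - 4 := ⟨_, rfl⟩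
    rw [← hK] at h2 ⊢
    field_simp
    rw [hK]; ring
  have h5 : 0 ≤ (2 * N - 3) / (3 * (N - 1) ^ 3 * N * (3 * N - 4)) :=
    div_nonneg (by linarith) (by positivity)
  linarith

lemma aa_B {N : ℝ} (hN : 3 ≤ N) : aa N ≤ (3 * N ^ 2 - 3 * N - 2) / (3 * N ^ 2 * (N - 2)) := by
  refine le_trans (aa_upper hN) ?_
  have h1 : 0 < N - 1 := by linarith
  have h2 : 0 < N - 2 := by linarith
  have h3 : 0 < N := by linarith
  have e1 : 1 - (1 / (N - 1)) ^ 2 = N * (N - 2) / (N - 1) ^ 2 := by field_simp; ring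
  rw [e1]
  have : (3 * N ^ 2 - 3 * N - 2) / (3 * N ^ 2 * (N - 2)) - (1 / (N - 1) + (1 / (N - 1)) ^ 3 / 3 +
      (1 / (N - 1)) ^ 5 / (N * (N - 2) / (N - 1) ^ 2)) =
      2 * (N ^ 2 - 3 * N + 1) / (3 * (N - 1) ^ 3 * N ^ 2 * (N - 2)) := by
    field_simp; ring
  have h5 : 0 ≤ 2 * (N ^ 2 - 3 * N + 1) / (3 * (N - 1) ^ 3 * N ^ 2 * (N - 2)) :=
    div_nonneg (by nlinarith) (by positivity)
  linarith

/-- quadratic coefficient -/
noncomputable def bb (N : ℝ) : ℝ := (1 / (N - 2) - aa N) / 2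

/-- cubic coefficient -/
noncomputable def cc (N : ℝ) : ℝ := (1 / (N - 2) + 1 / N - 2 * aa N) / 4

lemma bc_A {N : ℝ} (hN : 3 ≤ N) : (3 * N - 2) * cc N ≤ 2 * bb N := by
  have h := aa_A hN
  have h2 : 0 < 3 * N - 4 := by linarith
  have h3 : 0 < N := by linarith
  have h4 : 0 < N - 2 := by linarith
  rw [div_le_iff₀ (by positivity)] at h
  have : 2 * bb N - (3 * N - 2) * cc N = (aa N * (N * (3 * N - 4)) - (3 * N - 1)) / (2 * N) := by
    unfold bb cc; field_simp; ring
  have h5 : 0 ≤ (aa N * (N * (3 * N - 4)) - (3 * N - 1)) / (2 * N) :=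
    div_nonneg (by linarith) (by positivity)
  linarith

lemma bc_B {N : ℝ} (hN : 3 ≤ N) : 2 * bb N ≤ (3 * N + 2) * cc N := by
  have h := aa_B hN
  have h3 : 0 < N := by linarith
  have h4 : 0 < N - 2 := by linarith
  rw [le_div_iff₀ (by positivity)] at h
  have : (3 * N + 2) * cc N - 2 * bb N =
      ((3 * N ^ 2 - 3 * N - 2) - aa N * (3 * N ^ 2 * (N - 2))) / (2 * N * (N - 2)) := by
    unfold bb cc; field_simp; ring
  have h5 : 0 ≤ ((3 * N ^ 2 - 3 * N - 2) - aa N * (3 * N ^ 2 * (N - 2))) / (2 * N * (N - 2)) :=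
    div_nonneg (by linarith) (by positivity)
  linarith

lemma cc_nonneg {N : ℝ} (hN : 3 ≤ N) : 0 ≤ cc N := by
  have := bc_A hN; have := bc_B hN; linarith

lemma bb_nonneg {N : ℝ} (hN : 3 ≤ N) : 0 ≤ bb N := by
  have h1 := bc_A hN
  have h2 := mul_nonneg (show 0 ≤ 3 * N - 2 by linarith) (cc_nonneg hN)
  linarith

lemma aa_ge {N : ℝ} (hN : 3 ≤ N) : 1 / N ≤ aa N := by
  refine le_trans ?_ (aa_lower hN)
  have h1 : 0 < N - 1 := by linarith
  have : 1 / N ≤ 1 / (N - 1) := one_div_le_one_div_of_le h1 (by linarith)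
  have h4 : 0 ≤ (1 / (N - 1)) ^ 5 / 5 := by positivity
  have h5 : 0 ≤ (1 / (N - 1)) ^ 3 / 3 := by positivity
  linarith

lemma phi_zero (N : ℝ) : phi N 0 = 0 := by simp [phi]

lemma phi_two (N : ℝ) : phi N 2 = 0 := by unfold phi aa; ring

/-- Hermite interpolation bound -/
lemma hermite {N : ℝ} (hN : 3 ≤ N) {μ : ℝ} (hμ : μ < N) :
    phi N μ ≤ -bb N * (μ * (μ - 2)) - cc N * (μ * (μ - 2) ^ 2) := by
  have h3 : 0 < N := by linarith
  have h4 : 0 < N - 2 := by linarith
  let ψ : ℝ → ℝ := fun μ => -bb N * (μ * (μ - 2)) - cc N * (μ * (μ - 2) ^ 2) - phi N μ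
  set e := (3 * N + 2) * cc N - 2 * bb N with he
  let ψ' : ℝ → ℝ := fun μ => μ * (μ - 2) * (3 * cc N * μ - e) / (N - μ)
  have hd : ∀ x, x < N → HasDerivAt ψ (ψ' x) x := by
    intro x hx
    have hx' : 0 < N - x := by linarith
    have p1 : 1 - x / N ≠ 0 := by
      have : x / N < 1 := by rw [div_lt_one h3]; exact hx
      linarith
    have d1 := (((hasDerivAt_id x).div_const N).const_sub 1).log p1
    have d2 := d1.add ((hasDerivAt_id x).const_mul (aa N))
    have d3 := (((hasDerivAt_id x).mul ((hasDerivAt_id x).sub_const 2)).const_mul (-bb N)).sub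
      (((hasDerivAt_id x).mul (((hasDerivAt_id x).sub_const 2).pow 2)).const_mul (cc N))
    refine (d3.sub d2).congr_deriv ?_
    simp only [ψ', he, id, bb, cc]
    have e2 : 1 - x / N = (N - x) / N := by field_simp
    rw [e2]
    simp only [Pi.pow_apply]
    field_simp
    ring
  have mvt : ∀ p q, p < q → q < N → ∃ ξ, p < ξ ∧ ξ < q ∧ ψ q - ψ p = ψ' ξ * (q - p) := by
    intro p q hpq hq
    obtain ⟨ξ, hξ, h⟩ := exists_hasDerivAt_eq_slope ψ ψ' hpq
      (fun x hx => (hd x (lt_of_le_of_lt hx.2 hq)).continuousAt.continuousWithinAt)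
      (fun x hx => hd x (hx.2.trans hq))
    refine ⟨ξ, hξ.1, hξ.2, ?_⟩
    rw [h]; field_simp [(sub_pos.2 hpq).ne']
  have z0 : ψ 0 = 0 := by simp [ψ, phi_zero]
  have z2 : ψ 2 = 0 := by simp [ψ, phi_two]
  have hc := cc_nonneg hN
  have he0 : 0 ≤ e := by have := bc_B hN; linarith
  have he6 : e ≤ 6 * cc N := by have := bc_A hN; linarith
  suffices 0 ≤ ψ μ by simp only [ψ] at this; linarith
  have up : ∀ p q, p < q → q < N → (∀ ξ, p < ξ → ξ < q → 0 ≤ ξ * (ξ - 2) * (3 * cc N * ξ - e)) →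
      ψ p ≤ ψ q := by
    intro p q hpq hq h
    obtain ⟨ξ, a, b, c⟩ := mvt p q hpq hq
    have : 0 ≤ ψ' ξ * (q - p) :=
      mul_nonneg (div_nonneg (h ξ a b) (by linarith)) (by linarith)
    linarith
  have dn : ∀ p q, p < q → q < N → (∀ ξ, p < ξ → ξ < q → ξ * (ξ - 2) * (3 * cc N * ξ - e) ≤ 0) →
      ψ q ≤ ψ p := by
    intro p q hpq hq h
    obtain ⟨ξ, a, b, c⟩ := mvt p q hpq hq
    have : ψ' ξ * (q - p) ≤ 0 :=
      mul_nonpos_of_nonpos_of_nonneg (div_nonpos_of_nonpos_of_nonneg (h ξ a b) (by linarith))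
        (by linarith)
    linarith
  rcases lt_trichotomy μ 0 with h0 | h0 | h0
  · rw [← z0]
    refine dn μ 0 h0 h3 fun ξ _ b => mul_nonpos_of_nonneg_of_nonpos
      (mul_nonneg_of_nonpos_of_nonpos b.le (by linarith)) ?_
    nlinarith
  · rw [h0, z0]
  rcases lt_trichotomy μ 2 with h2 | h2 | h2
  · by_cases h : 3 * cc N * μ ≤ e
    · rw [← z0]
      refine up 0 μ h0 hμ fun ξ a b => mul_nonneg_of_nonpos_of_nonpos
        (mul_nonpos_of_nonneg_of_nonpos a.le (by linarith)) ?_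
      nlinarith
    · rw [← z2]
      refine dn μ 2 h2 (by linarith) fun ξ a b => mul_nonpos_of_nonpos_of_nonneg
        (mul_nonpos_of_nonneg_of_nonpos (by linarith) (by linarith)) ?_
      nlinarith
  · rw [h2, z2]
  · rw [← z2]
    refine up 2 μ h2 hμ fun ξ a b => mul_nonneg (mul_nonneg (by linarith) (by linarith)) ?_
    nlinarith

lemma tangent {N μ ν : ℝ} (hN : 0 < N) (hμ : μ < N) (hν : ν < N) :
    log (1 - μ / N) ≤ log (1 - ν / N) - (μ - ν) / (N - ν) := by
  have a : 0 < 1 - μ / N := by rw [sub_pos, div_lt_one hN]; exact hμ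
  have b : 0 < 1 - ν / N := by rw [sub_pos, div_lt_one hN]; exact hν
  have c : 0 < N - ν := by linarith
  have := log_le_sub_one_of_pos (div_pos a b)
  rw [log_div a.ne' b.ne'] at this
  have e : (1 - μ / N) / (1 - ν / N) - 1 = -((μ - ν) / (N - ν)) := by
    have e1 : 1 - μ / N = (N - μ) / N := by field_simp
    have e2 : 1 - ν / N = (N - ν) / N := by field_simp
    rw [e1, e2]; field_simp; ring
  linarith

lemma phi_mono {N : ℝ} (hN : 3 ≤ N) {μ ν : ℝ} (h : μ ≤ ν) (hν : ν ≤ 0) : phi N μ ≤ phi N ν := by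
  have h3 : 0 < N := by linarith
  have t := tangent h3 (show μ < N by linarith) (show ν < N by linarith)
  have a := aa_ge hN
  have b : 1 / (N - ν) ≤ 1 / N := one_div_le_one_div_of_le h3 (by linarith)
  have c : (ν - μ) * (1 / (N - ν)) ≤ (ν - μ) * aa N :=
    mul_le_mul_of_nonneg_left (b.trans a) (by linarith)
  have d : (μ - ν) / (N - ν) = -((ν - μ) * (1 / (N - ν))) := by ring
  unfold phi
  linarith

lemma phi_mid {N : ℝ} (hN : 3 ≤ N) {μ : ℝ} (h0 : 0 ≤ μ) (h2 : μ ≤ 2) : 0 ≤ phi N μ := by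
  have h3 : 0 < N := by linarith
  have b : 0 < 1 - 2 / N := by rw [sub_pos, div_lt_one h3]; linarith
  have := strictConcaveOn_log_Ioi.concaveOn.2 (Set.mem_Ioi.2 one_pos) (Set.mem_Ioi.2 b)
    (show 0 ≤ 1 - μ / 2 by linarith) (show 0 ≤ μ / 2 by linarith) (by ring)
  simp only [smul_eq_mul, log_one, mul_zero, zero_add, mul_one] at this
  have e : 1 - μ / 2 + μ / 2 * (1 - 2 / N) = 1 - μ / N := by ring
  rw [e] at this
  unfold phi aa
  linarith

lemma log_ub {y : ℝ} (h0 : 0 ≤ y) (h1 : y < 1) :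
    log ((1 - y) / (1 + y)) ≤ -(2 * (y + y ^ 3 / 3)) := by
  have := sum_range_le_log_div h0 h1 2
  simp only [Finset.sum_range_succ, Finset.sum_range_zero] at this
  rw [← inv_div, log_inv]
  norm_num at this ⊢
  linarith

/-- parameters of the second case -/
lemma params (n : ℕ) (hn : 3 ≤ n) : ∃ m θ : ℝ, 0 ≤ m ∧ (m + 2) ^ 2 ≤ 3 * (n : ℝ) - 2 ∧
    (∀ μ : ℝ, 0 ≤ μ → μ < n → phi n μ ≤ θ) ∧ phi n (-m) ≤ -((n : ℝ) - 2) * θ := by
  have hN : (3 : ℝ) ≤ n := by exact_mod_cast hn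
  have small : ∀ N ν : ℝ, 3 ≤ N → ν < N → aa N ≤ 1 / (N - ν) → ∀ μ : ℝ, 0 ≤ μ → μ < N →
      phi N μ ≤ log (1 - ν / N) + ν / (N - ν) := by
    intro N ν hN hν ha μ h0 hμ
    have t := tangent (show 0 < N by linarith) hμ hν
    have c : μ * aa N ≤ μ * (1 / (N - ν)) := mul_le_mul_of_nonneg_left ha h0
    have d : (μ - ν) / (N - ν) = μ * (1 / (N - ν)) - ν / (N - ν) := by ring
    unfold phi
    linarith
  by_cases h6 : 6 ≤ n
  · have h6' : (6 : ℝ) ≤ n := by exact_mod_cast h6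
    have hs : √((n : ℝ) - 2) ^ 2 = n - 2 := sq_sqrt (by linarith)
    have hs0 : 0 ≤ √((n : ℝ) - 2) := sqrt_nonneg _
    set m := √((n : ℝ) - 2)
    have hm2 : 2 ≤ m := by nlinarith
    have hA : (m + 2) ^ 2 ≤ 3 * (n : ℝ) - 2 := by nlinarith
    have hb := bb_nonneg hN
    have hc := cc_nonneg hN
    refine ⟨m, bb n, hs0, hA, fun μ h0 hμ => ?_, ?_⟩
    · have h1 := hermite hN hμ
      have h2 : 0 ≤ cc n * (μ * (μ - 2) ^ 2) := by positivity
      have h3 : 0 ≤ bb n * (μ - 1) ^ 2 := by positivity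
      nlinarith
    · have h1 := hermite hN (show -m < n by linarith)
      have h2 : cc n * (m + 2) ^ 2 ≤ 2 * bb n :=
        (mul_le_mul_of_nonneg_left hA hc).trans (by have := bc_A hN; linarith)
      have h3 := mul_le_mul_of_nonneg_left h2 hs0
      rw [← hs]
      nlinarith
  · have : n = 3 ∨ n = 4 ∨ n = 5 := by omega
    rcases this with rfl | rfl | rfl
    · have a1 := aa_lower hN
      have a2 := aa_upper3 hN
      push_cast at *
      refine ⟨16 / 25, _, by norm_num, by norm_num, small 3 (6 / 5) hN (by norm_num)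
        (by norm_num at a2 ⊢; linarith), ?_⟩
      have l := log_ub (y := 17 / 108) (by norm_num) (by norm_num)
      have e : log ((1 - 17 / 108) / (1 + 17 / 108)) = log (1 - -(16 / 25) / 3) + log (1 - 6 / 5 / 3) := by
        rw [← log_mul (by norm_num) (by norm_num)]; norm_num
      unfold phi
      norm_num at a1 l e ⊢
      linarith
    · have a1 := aa_lower hN
      have a2 := aa_upper3 hN
      push_cast at *
      refine ⟨29 / 25, _, by norm_num, by norm_num, small 4 (8 / 7) hN (by norm_num)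
        (by norm_num at a2 ⊢; linarith), ?_⟩
      have l := log_ub (y := 67 / 325) (by norm_num) (by norm_num)
      have e : log ((1 - 67 / 325) / (1 + 67 / 325)) =
          log (1 - -(29 / 25) / 4) + 2 * log (1 - 8 / 7 / 4) := by
        rw [two_mul, ← log_mul (by norm_num) (by norm_num), ← log_mul (by norm_num) (by norm_num)]
        norm_num
      unfold phi
      norm_num at a1 l e ⊢
      linarith
    · have a1 := aa_lower hN
      have a2 := aa_upper3 hN
      push_cast at *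
      refine ⟨8 / 5, _, by norm_num, by norm_num, small 5 (10 / 9) hN (by norm_num)
        (by norm_num at a2 ⊢; linarith), ?_⟩
      have l := log_ub (y := 1151 / 4924) (by norm_num) (by norm_num)
      have e : log ((1 - 1151 / 4924) / (1 + 1151 / 4924)) =
          log (1 - -(8 / 5) / 5) + 3 * log (1 - 10 / 9 / 5) := by
        have := log_pow (1 - 10 / 9 / 5 : ℝ) 3
        push_cast at this
        rw [← this, ← log_mul (by norm_num) (by norm_num)]
        norm_num
      unfold phi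
      norm_num at a1 l e ⊢
      linarith

theorem main_ineq {ι : Type} [Fintype ι] [DecidableEq ι] (hn : 3 ≤ Fintype.card ι) (μ : ι → ℝ)
    (h1 : ∀ i, μ i < Fintype.card ι) (j : ι) (hj : μ j = 0)
    (hD : 2 * ∑ i, max (-μ i) 0 ≤ ∑ i, μ i * (μ i - 2)) :
    ∑ i, phi (Fintype.card ι) (μ i) ≤ 0 := by
  obtain ⟨m, θ, hm, hA, hB, hC⟩ := params _ hn
  have hN : (3 : ℝ) ≤ Fintype.card ι := by exact_mod_cast hn
  set N : ℝ := (Fintype.card ι : ℝ) with hN'
  have hb := bb_nonneg hN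
  have hc := cc_nonneg hN
  by_cases hall : ∀ i, -m ≤ μ i
  · have h2 : cc N * (m + 2) ^ 2 ≤ 2 * bb N :=
      (mul_le_mul_of_nonneg_left hA hc).trans (by have := bc_A hN; linarith)
    have h3 : ∀ i, phi N (μ i) ≤ -bb N * (μ i * (μ i - 2)) + 2 * bb N * max (-μ i) 0 := by
      intro i
      have a := hermite hN (h1 i)
      rcases le_total 0 (μ i) with h | h
      · have : 0 ≤ cc N * (μ i * (μ i - 2) ^ 2) := by positivity
        have : 0 ≤ 2 * bb N * max (-μ i) 0 := by positivity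
        linarith
      · rw [max_eq_left (by linarith)]
        have b1 : (μ i - 2) ^ 2 ≤ (m + 2) ^ 2 := by have := hall i; nlinarith
        have b2 : cc N * (μ i - 2) ^ 2 ≤ 2 * bb N := (mul_le_mul_of_nonneg_left b1 hc).trans h2
        have b3 := mul_le_mul_of_nonneg_left b2 (show 0 ≤ -μ i by linarith)
        nlinarith
    refine (Finset.sum_le_sum fun i _ => h3 i).trans ?_
    rw [Finset.sum_add_distrib, ← Finset.mul_sum, ← Finset.mul_sum]
    nlinarith
  · push Not at hall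
    obtain ⟨i, hi⟩ := hall
    have hij : j ≠ i := by rintro rfl; linarith
    have hθ : 0 ≤ θ := by have := hB 0 le_rfl (by linarith); rwa [phi_zero] at this
    have h3 : ∀ k, phi N (μ k) ≤ θ := by
      intro k
      rcases le_total 0 (μ k) with h | h
      · exact hB _ h (h1 k)
      · have := phi_mono hN h le_rfl
        rw [phi_zero] at this; linarith
    rw [← Finset.add_sum_erase _ _ (Finset.mem_univ i),
      ← Finset.add_sum_erase _ _ (Finset.mem_erase.2 ⟨hij, Finset.mem_univ j⟩), hj, phi_zero]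
    have h4 := Finset.sum_le_card_nsmul ((univ.erase i).erase j) (fun k => phi N (μ k)) θ
      (fun k _ => h3 k)
    have h5 : (((univ.erase i).erase j).card : ℝ) = N - 2 := by
      have a := Finset.card_erase_add_one (Finset.mem_univ i)
      have b := Finset.card_erase_add_one (Finset.mem_erase.2 ⟨hij, Finset.mem_univ j⟩)
      rw [Finset.card_univ] at a
      rw [hN', ← a, ← b]; push_cast; ring
    rw [nsmul_eq_mul, h5] at h4
    have h6 := phi_mono hN hi.le (by linarith)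
    linarith

end Pool.Agent.H.MP_b029fa_co
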