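import Pool.Agent.H.MP_b029fa_co.A
import Pool.Agent.Lib.helper28.MatrixTree

set_option autoImplicit false

namespace Pool.Agent.H.MP_b029fa_co

open Finset Matrix Pool.Agent.Lib.helper28.MatrixTree

variable {V : Type} [Fintype V] [DecidableEq V]

lemma diag (L : Matrix V V ℝ) (hL : ∀ u v, L u v = L v u) :
    ∃ (U : Matrix V V ℝ) (μ : V → ℝ), U * Uᵀ = 1 ∧ Uᵀ * U = 1 ∧ L = U * diagonal μ * Uᵀ := by
  have h : L.IsHermitian := by
    ext u v; simp [hL v u]
  refine ⟨h.eigenvectorUnitary, h.eigenvalues, ?_, ?_, ?_⟩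
  · exact (Unitary.mul_star_self_of_mem h.eigenvectorUnitary.2)
  · exact (Unitary.star_mul_self_of_mem h.eigenvectorUnitary.2)
  · exact h.spectral_theorem

lemma quad (x : Sym2 V → ℝ) (b : V → ℝ) :
    ∑ u, ∑ v, b u * lap x u v * b v = (1 / 2) * ∑ u, ∑ v, x s(u, v) * (b u - b v) ^ 2 := by
  have e1 : ∑ u, ∑ v, b u * lap x u v * b v =
      ∑ u, ∑ v, x s(u, v) * b u ^ 2 - ∑ u, ∑ v, x s(u, v) * (b u * b v) := by
    rw [← Finset.sum_sub_distrib]
    refine Finset.sum_congr rfl fun u _ => ?_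
    simp only [lap, Matrix.of_apply, mul_sub, sub_mul, Finset.sum_sub_distrib]
    congr 1
    · rw [← Finset.sum_mul]; simp; ring
    · exact Finset.sum_congr rfl fun v _ => by ring
  have e2 : ∑ u, ∑ v, x s(u, v) * b v ^ 2 = ∑ u, ∑ v, x s(u, v) * b u ^ 2 := by
    rw [Finset.sum_comm]
    simp only [Sym2.eq_swap]
  have e3 : ∑ u, ∑ v, x s(u, v) * (b u - b v) ^ 2 = ∑ u, ∑ v, x s(u, v) * b u ^ 2 +
      ∑ u, ∑ v, x s(u, v) * b v ^ 2 - 2 * ∑ u, ∑ v, x s(u, v) * (b u * b v) := by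
    simp only [Finset.mul_sum, ← Finset.sum_add_distrib, ← Finset.sum_sub_distrib]
    exact Finset.sum_congr rfl fun u _ => Finset.sum_congr rfl fun v _ => by ring
  rw [e1, e3, e2]; ring

/-- spectral data of a Laplacian -/
lemma spec [Nonempty V] (x : Sym2 V → ℝ) : ∃ (U : Matrix V V ℝ) (μ : V → ℝ),
    (∀ t : ℝ, (t • (1 : Matrix V V ℝ) - lap x).det = ∏ i, (t - μ i)) ∧
    (∑ i, μ i = ∑ u, lap x u u) ∧ (∑ i, μ i ^ 2 = ∑ u, ∑ v, lap x u v ^ 2) ∧ (∃ j, μ j = 0) ∧
    (∀ i, μ i = (1 / 2) * ∑ u, ∑ v, x s(u, v) * (U u i - U v i) ^ 2) ∧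
    (∀ i, ∑ u, U u i ^ 2 = 1) ∧ (∀ u v, ∑ i, (U u i - U v i) ^ 2 ≤ 2) := by
  obtain ⟨U, μ, h1, h2, h3⟩ := diag (lap x) (lap_symm x)
  have hdet : ∀ t : ℝ, (t • (1 : Matrix V V ℝ) - lap x).det = ∏ i, (t - μ i) := by
    intro t
    have : t • (1 : Matrix V V ℝ) - lap x = U * diagonal (fun i => t - μ i) * Uᵀ := by
      have e : diagonal (fun i => t - μ i) = t • (1 : Matrix V V ℝ) - diagonal μ := by
        ext i j; by_cases h : i = j <;> simp [h]
      rw [e, Matrix.mul_sub, Matrix.sub_mul, ← h3]; simp [h1]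
    rw [this, det_mul, det_mul, mul_right_comm, ← det_mul, h1, det_one, one_mul, det_diagonal]
  refine ⟨U, μ, hdet, ?_, ?_, ?_, ?_, ?_, ?_⟩
  · have : (lap x).trace = ∑ i, μ i := by
      rw [h3, Matrix.trace_mul_cycle, h2, Matrix.one_mul, trace_diagonal]
    rw [← this]; rfl
  · have e : (lap x * lap x).trace = ∑ i, μ i ^ 2 := by
      have : lap x * lap x = U * diagonal (fun i => μ i ^ 2) * Uᵀ := by
        conv_lhs => rw [h3]
        rw [Matrix.mul_assoc, Matrix.mul_assoc U (diagonal μ) Uᵀ, ← Matrix.mul_assoc Uᵀ U, h2,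
          Matrix.one_mul, ← Matrix.mul_assoc, Matrix.mul_assoc U, diagonal_mul_diagonal]
        simp only [sq]
      rw [this, Matrix.trace_mul_cycle, h2, Matrix.one_mul, trace_diagonal]
    rw [← e]
    simp only [Matrix.trace, Matrix.diag, Matrix.mul_apply, sq]
    exact Finset.sum_congr rfl fun u _ => Finset.sum_congr rfl fun v _ => by rw [lap_symm x v u]
  · have h0 : ((0 : ℝ) • (1 : Matrix V V ℝ) - lap x).det = 0 := by
      rw [← Matrix.exists_mulVec_eq_zero_iff]
      refine ⟨fun _ => 1, fun h => by simpa using congrFun h (Classical.arbitrary V), ?_⟩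
      funext u
      simp [Matrix.mulVec, dotProduct, lap_row]
    rw [hdet, Finset.prod_eq_zero_iff] at h0
    obtain ⟨j, _, hj⟩ := h0
    exact ⟨j, by linarith⟩
  · intro i
    rw [← quad x (fun u => U u i)]
    have : Uᵀ * lap x * U = diagonal μ := by
      conv_lhs => rw [h3]
      rw [← Matrix.mul_assoc, ← Matrix.mul_assoc, h2, Matrix.one_mul, Matrix.mul_assoc, h2,
        Matrix.mul_one]
    have := congrFun (congrFun this i) i
    simp only [diagonal_apply_eq, Matrix.mul_apply, transpose_apply, Finset.sum_mul] at this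
    rw [← this, Finset.sum_comm]
  · intro i
    have := congrFun (congrFun h2 i) i
    simpa [Matrix.mul_apply, sq] using this
  · intro u v
    have a := congrFun (congrFun h1 u) u
    have b := congrFun (congrFun h1 v) v
    have c := congrFun (congrFun h1 u) v
    simp only [Matrix.mul_apply, transpose_apply, Matrix.one_apply, if_true] at a b c
    have : ∑ i, (U u i - U v i) ^ 2 =
        ∑ i, U u i * U u i + ∑ i, U v i * U v i - 2 * ∑ i, U u i * U v i := by
      simp only [Finset.mul_sum, ← Finset.sum_add_distrib, ← Finset.sum_sub_distrib]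
      exact Finset.sum_congr rfl fun i _ => by ring
    rw [this, a, b, c]
    split_ifs <;> norm_num

/-- complementary weights -/
def cw (w : Sym2 V → ℝ) : Sym2 V → ℝ := fun e => if e.IsDiag then 0 else 1 - w e

lemma lap_cw (w : Sym2 V → ℝ) (hw : ∀ e : Sym2 V, e.IsDiag → w e = 0) :
    lap w + Matrix.of (fun _ _ => (1 : ℝ)) =
      (Fintype.card V : ℝ) • (1 : Matrix V V ℝ) - lap (cw w) := by
  ext u v
  simp only [lap, cw, Matrix.add_apply, Matrix.of_apply, Matrix.sub_apply, Matrix.smul_apply,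
    Matrix.one_apply, Sym2.mk_isDiag_iff, smul_eq_mul]
  by_cases h : u = v
  · subst h
    have e : ∀ t, (if u = t then (0 : ℝ) else 1 - w s(u, t)) =
        1 - w s(u, t) - if u = t then 1 else 0 := by
      intro t
      split_ifs with h
      · subst h; rw [hw _ (Sym2.mk_isDiag_iff.2 rfl)]; ring
      · ring
    simp only [e, Finset.sum_sub_distrib, hw _ (Sym2.mk_isDiag_iff.2 rfl)]
    simp
    ring
  · simp [h]; ring

omit [DecidableEq V] in
lemma sum_sq_le (b : V → ℝ) (hb : ∑ u, b u ^ 2 = 1) :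
    (1 / 2) * ∑ u, ∑ v, (b u - b v) ^ 2 ≤ Fintype.card V := by
  have : ∑ u, ∑ v, (b u - b v) ^ 2 = ∑ u : V, ∑ v : V, b u ^ 2 + ∑ u : V, ∑ v : V, b v ^ 2 -
      2 * (∑ u, b u) ^ 2 := by
    rw [sq (∑ u, b u), Finset.sum_mul_sum]
    simp only [Finset.mul_sum, ← Finset.sum_add_distrib, ← Finset.sum_sub_distrib]
    exact Finset.sum_congr rfl fun u _ => Finset.sum_congr rfl fun v _ => by ring
  rw [this, Finset.sum_comm (f := fun u v : V => b u ^ 2)]
  simp only [hb, Finset.sum_const, Finset.card_univ, nsmul_eq_mul, mul_one]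
  nlinarith [sq_nonneg (∑ u, b u)]

omit [DecidableEq V] in
lemma prod_exp (N : ℝ) (hN : 0 < N) (μ : V → ℝ) (h : ∀ i, μ i < N) :
    ∏ i, (N - μ i) = N ^ Fintype.card V *
      Real.exp (∑ i, phi N (μ i) - aa N * ∑ i, μ i) := by
  rw [Finset.mul_sum, ← Finset.sum_sub_distrib, Real.exp_sum, ← Finset.card_univ,
    ← Finset.prod_const, ← Finset.prod_mul_distrib]
  refine Finset.prod_congr rfl fun i _ => ?_
  have a : 0 < 1 - μ i / N := by rw [sub_pos, div_lt_one hN]; exact h i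
  rw [phi, add_sub_cancel_right, Real.exp_log a]; field_simp

theorem upper (hn : 3 ≤ Fintype.card V) (z : Sym2 V → ℤ) (hz : ∀ e, z e ≤ 1)
    (hd : ∀ e : Sym2 V, e.IsDiag → z e = 0) :
    ((Fintype.card V : ℝ) • (1 : Matrix V V ℝ) - lap (fun e => (z e : ℝ))).det ≤
      (Fintype.card V : ℝ) ^ Fintype.card V *
        Real.exp (-aa (Fintype.card V) * ∑ u, ∑ v, (z s(u, v) : ℝ)) := by
  have : Nonempty V := Fintype.card_pos_iff.1 (by omega)
  obtain ⟨U, μ, s1, s2, s3, ⟨j, hj⟩, s5, s6, s7⟩ := spec (fun e => (z e : ℝ))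
  have hN : (0 : ℝ) < Fintype.card V := by exact_mod_cast (show 0 < Fintype.card V by omega)
  have hz' : ∀ e, (z e : ℝ) ≤ 1 := fun e => by exact_mod_cast hz e
  have hd' : ∀ u, (z s(u, u) : ℝ) = 0 := fun u => by rw [hd _ (Sym2.mk_isDiag_iff.2 rfl)]; simp
  have hle : ∀ i, μ i ≤ Fintype.card V := by
    intro i
    refine le_trans ?_ (sum_sq_le (fun u => U u i) (s6 i))
    rw [s5 i]
    refine mul_le_mul_of_nonneg_left (Finset.sum_le_sum fun u _ => Finset.sum_le_sum fun v _ => ?_)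
      (by norm_num)
    nlinarith [hz' s(u, v), sq_nonneg (U u i - U v i)]
  rw [s1]
  by_cases hex : ∃ i, μ i = Fintype.card V
  · obtain ⟨i, hi⟩ := hex
    rw [Finset.prod_eq_zero (Finset.mem_univ i) (by rw [hi]; simp)]
    positivity
  push Not at hex
  have hlt : ∀ i, μ i < Fintype.card V := fun i => lt_of_le_of_ne (hle i) (hex i)
  have hdiag : ∀ u, lap (fun e => (z e : ℝ)) u u = ∑ v, (z s(u, v) : ℝ) := by
    intro u; simp [lap, hd']
  simp only [hdiag] at s2
  rw [prod_exp _ hN μ hlt, s2]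
  refine mul_le_mul_of_nonneg_left (Real.exp_le_exp.2 ?_) (by positivity)
  suffices ∑ i, phi (Fintype.card V) (μ i) ≤ 0 by linarith
  refine main_ineq hn μ hlt j hj ?_
  have b1 : ∑ i, max (-μ i) 0 ≤ ∑ u, ∑ v, max (-(z s(u, v) : ℝ)) 0 := by
    have c1 : ∀ i, max (-μ i) 0 ≤
        (1 / 2) * ∑ u, ∑ v, max (-(z s(u, v) : ℝ)) 0 * (U u i - U v i) ^ 2 := by
      intro i
      refine max_le ?_ (by positivity)
      rw [s5 i, ← mul_neg, ← Finset.sum_neg_distrib]
      refine mul_le_mul_of_nonneg_left (Finset.sum_le_sum fun u _ => ?_) (by norm_num)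
      rw [← Finset.sum_neg_distrib]
      refine Finset.sum_le_sum fun v _ => ?_
      rw [← neg_mul]
      exact mul_le_mul_of_nonneg_right (le_max_left _ _) (sq_nonneg _)
    refine (Finset.sum_le_sum fun i _ => c1 i).trans ?_
    rw [← Finset.mul_sum, Finset.sum_comm, Finset.mul_sum]
    refine Finset.sum_le_sum fun u _ => ?_
    rw [Finset.sum_comm, Finset.mul_sum]
    refine Finset.sum_le_sum fun v _ => ?_
    rw [← Finset.mul_sum]
    have := mul_le_mul_of_nonneg_left (s7 u v) (le_max_right (-(z s(u, v) : ℝ)) 0)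
    linarith
  have b2 : ∑ i, μ i * (μ i - 2) = ∑ i, μ i ^ 2 - 2 * ∑ i, μ i := by
    rw [Finset.mul_sum, ← Finset.sum_sub_distrib]
    exact Finset.sum_congr rfl fun i _ => by ring
  rw [b2, s2, s3]
  refine (mul_le_mul_of_nonneg_left b1 (by norm_num)).trans ?_
  rw [Finset.mul_sum, Finset.mul_sum, ← Finset.sum_sub_distrib]
  refine Finset.sum_le_sum fun u _ => ?_
  have c2 : ∑ v, lap (fun e => (z e : ℝ)) u v ^ 2 =
      (∑ v, (z s(u, v) : ℝ)) ^ 2 + ∑ v, (z s(u, v) : ℝ) ^ 2 := by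
    have : ∀ v, lap (fun e => (z e : ℝ)) u v ^ 2 =
        (if u = v then (∑ v, (z s(u, v) : ℝ)) ^ 2 else 0) + (z s(u, v) : ℝ) ^ 2 := by
      intro v
      by_cases h : u = v
      · subst h; simp [hdiag, hd']
      · simp [lap, h]
    simp only [this, Finset.sum_add_distrib]
    simp
  have int1 : ∀ k : ℤ, (k : ℝ) ≤ (k : ℝ) ^ 2 := fun k => by
    have : k ≤ k ^ 2 := by nlinarith [Int.le_self_sq k]
    exact_mod_cast this
  have c3 : (∑ v, (z s(u, v) : ℝ)) ≤ (∑ v, (z s(u, v) : ℝ)) ^ 2 := by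
    have := int1 (∑ v, z s(u, v))
    push_cast at this
    exact this
  have c4 : 2 * ∑ v, max (-(z s(u, v) : ℝ)) 0 ≤
      ∑ v, (z s(u, v) : ℝ) ^ 2 - ∑ v, (z s(u, v) : ℝ) := by
    rw [Finset.mul_sum, ← Finset.sum_sub_distrib]
    refine Finset.sum_le_sum fun v _ => ?_
    have a := int1 (z s(u, v))
    have b := int1 (-z s(u, v))
    push_cast at b
    rcases le_total (-(z s(u, v) : ℝ)) 0 with h | h
    · rw [max_eq_right h]; linarith
    · rw [max_eq_left h]; nlinarith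
  rw [c2]
  linarith

theorem lower (hn : 3 ≤ Fintype.card V) (x : Sym2 V → ℝ) (hx : ∀ e, 0 ≤ x e)
    (hd : ∀ e : Sym2 V, e.IsDiag → x e = 0) (hdeg : ∀ u, ∑ v, x s(u, v) ≤ 1) :
    (Fintype.card V : ℝ) ^ Fintype.card V *
        Real.exp (-aa (Fintype.card V) * ∑ u, ∑ v, x s(u, v)) ≤
      ((Fintype.card V : ℝ) • (1 : Matrix V V ℝ) - lap x).det := by
  have : Nonempty V := Fintype.card_pos_iff.1 (by omega)
  obtain ⟨U, μ, s1, s2, -, -, s5, s6, -⟩ := spec x
  have hN3 : (3 : ℝ) ≤ Fintype.card V := by exact_mod_cast hn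
  have hd' : ∀ u, x s(u, u) = 0 := fun u => hd _ (Sym2.mk_isDiag_iff.2 rfl)
  have h0 : ∀ i, 0 ≤ μ i := fun i => by
    rw [s5 i]
    exact mul_nonneg (by norm_num) (Finset.sum_nonneg fun u _ => Finset.sum_nonneg fun v _ =>
      mul_nonneg (hx _) (sq_nonneg _))
  have h2 : ∀ i, μ i ≤ 2 := by
    intro i
    have e2 : ∑ u, ∑ v, x s(u, v) * U v i ^ 2 = ∑ u, ∑ v, x s(u, v) * U u i ^ 2 := by
      rw [Finset.sum_comm]
      simp only [Sym2.eq_swap]
    have e3 : ∑ u, ∑ v, x s(u, v) * U u i ^ 2 ≤ 1 := by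
      rw [← s6 i]
      refine Finset.sum_le_sum fun u _ => ?_
      rw [← Finset.sum_mul]
      nlinarith [hdeg u, sq_nonneg (U u i)]
    have e4 : ∑ u, ∑ v, x s(u, v) * (U u i - U v i) ^ 2 ≤
        2 * ∑ u, ∑ v, x s(u, v) * U u i ^ 2 + 2 * ∑ u, ∑ v, x s(u, v) * U v i ^ 2 := by
      simp only [Finset.mul_sum, ← Finset.sum_add_distrib]
      refine Finset.sum_le_sum fun u _ => Finset.sum_le_sum fun v _ => ?_
      nlinarith [mul_nonneg (hx s(u, v)) (sq_nonneg (U u i + U v i))]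
    rw [s5 i]
    linarith
  have hdiag : ∀ u, lap x u u = ∑ v, x s(u, v) := by
    intro u; simp [lap, hd']
  simp only [hdiag] at s2
  rw [s1, prod_exp _ (by linarith) μ (fun i => by linarith [h2 i]), s2]
  refine mul_le_mul_of_nonneg_left (Real.exp_le_exp.2 ?_) (by positivity)
  have : 0 ≤ ∑ i, phi (Fintype.card V) (μ i) :=
    Finset.sum_nonneg fun i _ => phi_mid hN3 (h0 i) (h2 i)
  linarith

lemma dsum (w : Sym2 V → ℝ) (hw : ∀ e : Sym2 V, e.IsDiag → w e = 0) :
    ∑ u, ∑ v, w s(u, v) = 2 * ∑ e, w e := by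
  rw [← Fintype.sum_prod_type' (f := fun u v => w s(u, v)),
    ← Finset.sum_fiberwise (s := univ) (g := fun p : V × V => s(p.1, p.2)), Finset.mul_sum]
  refine Finset.sum_congr rfl fun e _ => ?_
  rw [Finset.sum_congr rfl (g := fun _ => w e) (fun p hp => by rw [(Finset.mem_filter.1 hp).2])]
  induction e using Sym2.ind with
  | _ a b =>
    by_cases h : a = b
    · simp [hw _ (Sym2.mk_isDiag_iff.2 h)]
    · have : (univ.filter fun p : V × V => s(p.1, p.2) = s(a, b)) = {(a, b), (b, a)} := by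
        ext ⟨p, q⟩; simp
      rw [this, Finset.sum_pair (by simp [h])]; ring

theorem tau_le (hn : 3 ≤ Fintype.card V) (M : Finset (Sym2 V))
    (hM : ∀ e ∈ M, ∀ f ∈ M, e ≠ f → ∀ v : V, v ∈ e → v ∉ f) (m m' : Sym2 V → ℕ)
    (hm : ∀ e : Sym2 V, e.IsDiag → m e = 0) (hm' : ∀ e, m' e = if e.IsDiag ∨ e ∈ M then 0 else 1)
    (hs : ∑ e, m e = ∑ e, m' e) : tau (fun e => (m e : ℝ)) ≤ tau (fun e => (m' e : ℝ)) := by
  have : Nonempty V := Fintype.card_pos_iff.1 (by omega)
  have hN : (0 : ℝ) < Fintype.card V := by exact_mod_cast (show 0 < Fintype.card V by omega)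
  have d1 : ∀ e : Sym2 V, e.IsDiag → (m e : ℝ) = 0 := fun e he => by simp [hm e he]
  have d2 : ∀ e : Sym2 V, e.IsDiag → (m' e : ℝ) = 0 := fun e he => by simp [hm' e, he]
  have t1 := matrix_tree_J _ d1
  have t2 := matrix_tree_J _ d2
  rw [lap_cw _ d1] at t1
  rw [lap_cw _ d2] at t2
  have u := upper hn (fun e => if e.IsDiag then 0 else 1 - (m e : ℤ))
    (fun e => by split_ifs <;> omega) (fun e he => by simp [he])
  have e1 : (fun e : Sym2 V => (((if e.IsDiag then 0 else 1 - (m e : ℤ)) : ℤ) : ℝ)) =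
      cw (fun e => (m e : ℝ)) := by
    funext e; simp [cw]
  have e2 := fun e => congrFun e1 e
  simp only [e2] at u
  have l := lower hn (cw (fun e => (m' e : ℝ))) (fun e => by
      simp only [cw, hm']; split_ifs <;> simp) (fun e he => by simp [cw, he]) (fun u => by
      have : ∀ v, cw (fun e => (m' e : ℝ)) s(u, v) = if u ≠ v ∧ s(u, v) ∈ M then 1 else 0 := by
        intro v
        simp only [cw, hm', Sym2.mk_isDiag_iff]
        by_cases h1 : u = v <;> by_cases h2 : s(u, v) ∈ M <;> simp [h1, h2]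
      simp only [this, Finset.sum_boole]
      rw [Nat.cast_le_one, Finset.card_le_one]
      intro a ha b hb
      simp only [Finset.mem_filter, Finset.mem_univ, true_and] at ha hb
      by_contra hab
      refine hM _ ha.2 _ hb.2 (fun h => hab (Sym2.congr_right.1 h)) u (by simp) (by simp))
  have e3 : ∀ w : Sym2 V → ℝ, (∀ e : Sym2 V, e.IsDiag → w e = 0) →
      ∑ e, cw w e = ∑ e : Sym2 V, (if e.IsDiag then (0 : ℝ) else 1) - ∑ e, w e := by
    intro w hw
    rw [← Finset.sum_sub_distrib]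
    refine Finset.sum_congr rfl fun e _ => ?_
    unfold cw
    split_ifs with h
    · simp [hw e h]
    · rfl
  have e4 : ∑ e, (m e : ℝ) = ∑ e, (m' e : ℝ) := by exact_mod_cast hs
  rw [dsum _ (fun e he => by simp [cw, he]), e3 _ d1, e4] at u
  rw [dsum _ (fun e he => by simp [cw, he]), e3 _ d2] at l
  have := u.trans l
  rw [t1, t2] at this
  exact le_of_mul_le_mul_left this (by positivity)

end Pool.Agent.H.MP_b029fa_co
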